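import Pool.Agent.H477R3.Core
import Pool.Agent.H477R3.Poly

/-!
# The Hanani–Tutte criterion for simultaneous embedding with fixed edges fails

The plane is the complex plane `ℂ`.  The vertices of the two graphs form a set of elements of a type
`V`; a graph is a subgraph of the complete graph on `V`, so that `G₁ ⊔ G₂` and `G₁ ⊓ G₂` are the
union and the intersection of the problem.
-/

set_option autoImplicit false

namespace Pool.Agent.Results.MP_3c943f_co.HananiTutteSefeFails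

/-- `a` is (the set of points of) a simple arc in the plane joining `x` and `y`. -/
def IsArc (a : Set ℂ) (x y : ℂ) : Prop :=
  ∃ γ : Path x y, Function.Injective γ ∧ Set.range γ = a

/-- The arcs `a` and `b` cross properly at `z`: in suitable local coordinates around `z` (a
homeomorphism `φ` between a neighbourhood of `z` and an open subset of `ℝ × ℝ`, with `φ z = 0`),
the arc `a` is the first coordinate axis and the arc `b` is the second coordinate axis. -/
def IsProperCrossing (a b : Set ℂ) (z : ℂ) : Prop :=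
  ∃ φ : OpenPartialHomeomorph ℂ (ℝ × ℝ), z ∈ φ.source ∧ φ z = (0, 0) ∧
    ∀ w ∈ φ.source, (w ∈ a ↔ (φ w).2 = 0) ∧ (w ∈ b ↔ (φ w).1 = 0)

/-- A drawing of a graph `G` in the plane: the vertices are distinct points, the edges are simple
arcs joining their endpoints, no arc passes through a vertex other than its endpoints, any two arcs
share finitely many points, and each common point of two arcs that is not a vertex is a proper
crossing of the two arcs. -/
structure Drawing {V : Type} (G : (⊤ : SimpleGraph V).Subgraph) where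
  /-- the point of a vertex -/
  pt : V → ℂ
  /-- the arc of an edge -/
  arc : Sym2 V → Set ℂ
  injOn : Set.InjOn pt G.verts
  isArc : ∀ u v : V, G.Adj u v → IsArc (arc s(u, v)) (pt u) (pt v)
  avoid : ∀ e ∈ G.edgeSet, ∀ w ∈ G.verts, pt w ∈ arc e → w ∈ e
  finite : ∀ e ∈ G.edgeSet, ∀ f ∈ G.edgeSet, e ≠ f → (arc e ∩ arc f).Finite
  proper : ∀ e ∈ G.edgeSet, ∀ f ∈ G.edgeSet, e ≠ f → ∀ z ∈ arc e ∩ arc f,
    z ∉ pt '' G.verts → IsProperCrossing (arc e) (arc f) z

/-- The mutual crossings of two edges: the common points of their arcs that are not vertices. -/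
def Drawing.crossings {V : Type} {G : (⊤ : SimpleGraph V).Subgraph} (D : Drawing G)
    (e f : Sym2 V) : Set ℂ :=
  (D.arc e ∩ D.arc f) \ D.pt '' G.verts

/-- The subdrawing `D[H]` of a drawing `D` of `G`, for a subgraph `H` of `G`. -/
def Drawing.restrict {V : Type} {G H : (⊤ : SimpleGraph V).Subgraph} (D : Drawing G)
    (h : H ≤ G) : Drawing H where
  pt := D.pt
  arc := D.arc
  injOn := D.injOn.mono h.1
  isArc u v huv := D.isArc u v (h.2 huv)
  avoid e he w hw := D.avoid e (SimpleGraph.Subgraph.edgeSet_mono h he) w (h.1 hw)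
  finite e he f hf := D.finite e (SimpleGraph.Subgraph.edgeSet_mono h he) f
    (SimpleGraph.Subgraph.edgeSet_mono h hf)
  proper e he f hf hef z hz hzn := by
    refine D.proper e (SimpleGraph.Subgraph.edgeSet_mono h he) f
      (SimpleGraph.Subgraph.edgeSet_mono h hf) hef z hz ?_
    rintro ⟨w, hw, rfl⟩
    have hwe := D.avoid e (SimpleGraph.Subgraph.edgeSet_mono h he) w hw hz.1
    exact hzn ⟨w, SimpleGraph.Subgraph.mem_verts_of_mem_edge he hwe, rfl⟩

/-- `iocr(D)`: the number of pairs of independent edges whose number of mutual crossings is odd. -/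
noncomputable def Drawing.iocr {V : Type} {G : (⊤ : SimpleGraph V).Subgraph}
    (D : Drawing G) : ℕ :=
  Set.ncard {p : Sym2 (Sym2 V) | ∃ e ∈ G.edgeSet, ∃ f ∈ G.edgeSet, p = s(e, f) ∧
    (∀ w : V, w ∈ e → w ∉ f) ∧ Odd (D.crossings e f).ncard}

/-- `siocr(D) = iocr(D[G₁]) + iocr(D[G₂])` for a drawing `D` of `G₁ ∪ G₂`. -/
noncomputable def siocrOf {V : Type} {G₁ G₂ : (⊤ : SimpleGraph V).Subgraph}
    (D : Drawing (G₁ ⊔ G₂)) : ℕ :=
  (D.restrict le_sup_left).iocr + (D.restrict le_sup_right).iocr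

/-- `siocr(G₁, G₂)`: the minimum of `siocr(D)` over all drawings `D` of `G₁ ∪ G₂`. -/
noncomputable def siocr {V : Type} (G₁ G₂ : (⊤ : SimpleGraph V).Subgraph) : ℕ :=
  sInf {n : ℕ | ∃ D : Drawing (G₁ ⊔ G₂), siocrOf D = n}

/-- A drawing is planar if no two edges cross. -/
def Drawing.Planar {V : Type} {G : (⊤ : SimpleGraph V).Subgraph} (D : Drawing G) : Prop :=
  ∀ e ∈ G.edgeSet, ∀ f ∈ G.edgeSet, e ≠ f → D.crossings e f = ∅

/-- `(G₁, G₂)` admits a simultaneous embedding with fixed edges: there are planar drawings of `G₁`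
and `G₂` in which every common vertex is the same point and every common edge is the same arc. -/
def HasSEFE {V : Type} (G₁ G₂ : (⊤ : SimpleGraph V).Subgraph) : Prop :=
  ∃ (Γ₁ : Drawing G₁) (Γ₂ : Drawing G₂), Γ₁.Planar ∧ Γ₂.Planar ∧
    (∀ v ∈ G₁.verts ∩ G₂.verts, Γ₁.pt v = Γ₂.pt v) ∧
    (∀ e ∈ G₁.edgeSet ∩ G₂.edgeSet, Γ₁.arc e = Γ₂.arc e)

/-! ### The pair of graphs -/

open Pool.Agent.H477R3.Poly

/-- the first ends of the 13 edges `AB`, `A a_i`, `B b_i`, `a_i b_i`, `a_{i+1} b_i` -/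
def eu : Fin 13 → Fin 8 := ![0, 0, 0, 0, 1, 1, 1, 2, 3, 4, 3, 4, 2]

/-- the second ends -/
def ev : Fin 13 → Fin 8 := ![1, 2, 3, 4, 5, 6, 7, 5, 6, 7, 5, 6, 7]

/-- the graph on 8 vertices with the given edges -/
def mkG (I : Finset (Fin 13)) : (⊤ : SimpleGraph (Fin 8)).Subgraph where
  verts := Set.univ
  Adj u v := ∃ i ∈ I, s(u, v) = s(eu i, ev i)
  adj_sub := by
    rintro u v ⟨i, -, h⟩
    rw [SimpleGraph.top_adj]
    rintro rfl
    have h1 : (s(eu i, ev i) : Sym2 (Fin 8)).IsDiag := by rw [← h]; simp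
    rw [Sym2.mk_isDiag_iff] at h1
    clear h
    revert h1
    revert i
    decide
  edge_vert _ := Set.mem_univ _
  symm := ⟨by
    rintro u v ⟨i, hi, h⟩
    exact ⟨i, hi, by rw [Sym2.eq_swap]; exact h⟩⟩

theorem mem_edge {I : Finset (Fin 13)} {e : Sym2 (Fin 8)} :
    e ∈ (mkG I).edgeSet ↔ ∃ i ∈ I, e = s(eu i, ev i) := by
  induction e with
  | _ u v => exact Iff.rfl

/-- the edges of the first graph -/
def I₁ : Finset (Fin 13) := {0, 1, 2, 3, 4, 5, 6, 7, 8, 9}

/-- the edges of the second graph -/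
def I₂ : Finset (Fin 13) := {0, 1, 2, 3, 4, 5, 6, 10, 11, 12}

/-! ### The drawing with all required crossing numbers even -/

def pos : Fin 8 → P :=
  ![(22, 5), (15, 16), (29, 34), (26, 23), (21, 6), (20, 9), (2, 32), (17, 26)]

def sgs : Fin 13 → Finset (P × P) :=
  ![{((22, 5), (0, 35)), ((0, 35), (33, 35)), ((33, 35), (15, 16))},
    {((22, 5), (29, 34))}, {((22, 5), (26, 23))}, {((22, 5), (21, 6))},
    {((15, 16), (20, 9))}, {((15, 16), (2, 32))}, {((15, 16), (17, 26))},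
    {((29, 34), (0, 32)), ((0, 32), (20, 9))}, {((26, 23), (2, 32))}, {((21, 6), (17, 26))},
    {((26, 23), (20, 9))}, {((21, 6), (2, 32))}, {((29, 34), (17, 26))}]

theorem chk_inj : ∀ i j : Fin 13, i ≠ j → (s(eu i, ev i) : Sym2 (Fin 8)) ≠ s(eu j, ev j) := by
  decide +kernel

theorem chk_self : ∀ i : Fin 13, ∀ s ∈ sgs i, s.1 ≠ s.2 ∧ ∀ s' ∈ sgs i, s ≠ s' → sep s s' = true := by
  decide +kernel

theorem chk_avoid : ∀ i : Fin 13, ∀ w : Fin 8, w ≠ eu i → w ≠ ev i → ∀ s ∈ sgs i,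
    os s (pos w) ≠ 0 := by
  decide +kernel

theorem chk_pair : ∀ i j : Fin 13, i ≠ j → ∀ s ∈ sgs i, ∀ t ∈ sgs j,
    disj s t = true ∨ cross s t = true ∨ ∃ w : Fin 8, cornerAt (pos w) s t = true := by
  decide +kernel

theorem chk_indep : ∀ i j : Fin 13, eu i ≠ eu j → eu i ≠ ev j → ev i ≠ eu j → ev i ≠ ev j →
    ∀ s ∈ sgs i, ∀ t ∈ sgs j, disj s t = true ∨ cross s t = true := by
  decide +kernel

theorem chk_even : ∀ i j : Fin 13, ((i ∈ I₁ ∧ j ∈ I₁) ∨ (i ∈ I₂ ∧ j ∈ I₂)) →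
    eu i ≠ eu j → eu i ≠ ev j → ev i ≠ eu j → ev i ≠ ev j →
    Even ((sgs i ×ˢ sgs j).filter (fun q => cross q.1 q.2 = true)).card := by
  decide +kernel

theorem chk_pos : ∀ u v : Fin 8, pos u = pos v → u = v := by
  decide +kernel

theorem arc_i : ∀ i : Fin 13, IsArc (arcOf (sgs i)) (cp (pos (eu i))) (cp (pos (ev i))) := by
  have single : ∀ s : P × P, s.1 ≠ s.2 → IsArc (arcOf {s}) (cp s.1) (cp s.2) := by
    intro s hs
    obtain ⟨γ, h1, h2⟩ := arc_seg (fun h => hs (cp_inj h) : cp s.1 ≠ cp s.2)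
    exact ⟨γ, h1, by rw [h2]; ext z; simp [arcOf, sg]⟩
  intro i
  fin_cases i
  · obtain ⟨γ, h1, h2⟩ := arc_append
      (arc_append (arc_seg (x := cp (22, 5)) (y := cp (0, 35)) (fun h => by
        have := cp_inj h; revert this; decide))
      (arc_seg (x := cp (0, 35)) (y := cp (33, 35)) (fun h => by
        have := cp_inj h; revert this; decide))
      (corner_sound (c := (0, 35)) (s := ((22, 5), (0, 35))) (t := ((0, 35), (33, 35)))
        (by decide)))
      (arc_seg (x := cp (33, 35)) (y := cp (15, 16)) (fun h => by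
        have := cp_inj h; revert this; decide))
      (by
        rintro z ⟨hz | hz, hz'⟩
        · exact absurd hz' (Set.disjoint_left.1 (disj_sound (s := ((22, 5), (0, 35)))
            (t := ((33, 35), (15, 16))) (by decide)) hz)
        · exact corner_sound (c := (33, 35)) (s := ((0, 35), (33, 35)))
            (t := ((33, 35), (15, 16))) (by decide) ⟨hz, hz'⟩)
    refine ⟨γ, h1, h2.trans ?_⟩
    ext z
    simp [arcOf, sg, sgs, or_assoc]
  · exact single _ (by decide)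
  · exact single _ (by decide)
  · exact single _ (by decide)
  · exact single _ (by decide)
  · exact single _ (by decide)
  · exact single _ (by decide)
  · obtain ⟨γ, h1, h2⟩ := 
      arc_append (arc_seg (x := cp (29, 34)) (y := cp (0, 32)) (fun h => by
        have := cp_inj h; revert this; decide))
      (arc_seg (x := cp (0, 32)) (y := cp (20, 9)) (fun h => by
        have := cp_inj h; revert this; decide))
      (corner_sound (c := (0, 32)) (s := ((29, 34), (0, 32))) (t := ((0, 32), (20, 9)))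
        (by decide))
    refine ⟨γ, h1, h2.trans ?_⟩
    ext z
    simp [arcOf, sg, sgs]
  · exact single _ (by decide)
  · exact single _ (by decide)
  · exact single _ (by decide)
  · exact single _ (by decide)
  · exact single _ (by decide)

theorem idx_inj {i j : Fin 13} (h : (s(eu i, ev i) : Sym2 (Fin 8)) = s(eu j, ev j)) : i = j := by
  by_contra hne
  exact chk_inj i j hne h

/-- the arcs of the drawing -/
noncomputable def theArc (e : Sym2 (Fin 8)) : Set ℂ :=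
  {z | ∃ i : Fin 13, e = s(eu i, ev i) ∧ z ∈ arcOf (sgs i)}

theorem theArc_eq (i : Fin 13) : theArc s(eu i, ev i) = arcOf (sgs i) := by
  ext z
  constructor
  · rintro ⟨j, h, hz⟩
    rw [idx_inj h]; exact hz
  · intro hz; exact ⟨i, rfl, hz⟩

theorem avoid_i {i : Fin 13} {w : Fin 8} (h : cp (pos w) ∈ arcOf (sgs i)) : w = eu i ∨ w = ev i := by
  by_contra hcon
  push Not at hcon
  obtain ⟨s, hs, hz⟩ := h
  apply chk_avoid i w hcon.1 hcon.2 s hs
  have := orr_seg hz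
  rw [orr_cp] at this
  unfold os
  exact_mod_cast this

/-- the drawing of the graph with all 13 edges -/
noncomputable def D₀ : Drawing (mkG Finset.univ) where
  pt v := cp (pos v)
  arc := theArc
  injOn u _ v _ h := chk_pos u v (cp_inj h)
  isArc := by
    rintro u v ⟨i, -, h⟩
    rw [h, theArc_eq]
    rw [Sym2.eq_iff] at h
    rcases h with ⟨h1, h2⟩ | ⟨h1, h2⟩
    · rw [h1, h2]; exact arc_i i
    · rw [h1, h2]
      obtain ⟨γ, hγ, hr⟩ := arc_i i
      exact ⟨γ.symm, fun s t hst => unitInterval.symm_bijective.1 (hγ hst), by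
        rw [Path.symm_range]; exact hr⟩
  avoid := by
    intro e he w _ hw
    obtain ⟨i, -, rfl⟩ := mem_edge.1 he
    rw [theArc_eq] at hw
    rw [Sym2.mem_iff]
    exact avoid_i hw
  finite := by
    intro e he f hf hef
    obtain ⟨i, -, rfl⟩ := mem_edge.1 he
    obtain ⟨j, -, rfl⟩ := mem_edge.1 hf
    have hij : i ≠ j := fun h => hef (by rw [h])
    rw [theArc_eq, theArc_eq]
    have hsub : arcOf (sgs i) ∩ arcOf (sgs j) ⊆
        ⋃ s ∈ sgs i, ⋃ t ∈ sgs j, sg s ∩ sg t := by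
      rintro z ⟨⟨s, hs, hzs⟩, ⟨t, ht, hzt⟩⟩
      simp only [Set.mem_iUnion]
      exact ⟨s, hs, t, ht, hzs, hzt⟩
    refine Set.Finite.subset ?_ hsub
    refine Set.Finite.biUnion (sgs i).finite_toSet ?_
    intro s hs
    refine Set.Finite.biUnion (sgs j).finite_toSet ?_
    intro t ht
    rcases chk_pair i j hij s hs t ht with h | h | ⟨w, h⟩
    · rw [Set.disjoint_iff_inter_eq_empty.1 (disj_sound h)]; exact Set.finite_empty
    · obtain ⟨z, hz, -⟩ := cross_sound h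
      rw [hz]; exact Set.finite_singleton z
    · exact (Set.finite_singleton _).subset (corner_sound h)
  proper := by
    intro e he f hf hef z hz hzn
    obtain ⟨i, -, rfl⟩ := mem_edge.1 he
    obtain ⟨j, -, rfl⟩ := mem_edge.1 hf
    have hij : i ≠ j := fun h => hef (by rw [h])
    rw [theArc_eq, theArc_eq] at hz ⊢
    obtain ⟨⟨s, hs, hzs⟩, ⟨t, ht, hzt⟩⟩ := hz
    rcases chk_pair i j hij s hs t ht with h | h | ⟨w, h⟩
    · exact absurd hzt (Set.disjoint_left.1 (disj_sound h) hzs)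
    · exact proper_sound (chk_self i) (chk_self j) hs ht h hzs hzt
    · exact absurd ⟨w, Set.mem_univ _, (corner_sound h ⟨hzs, hzt⟩).symm⟩ hzn

theorem le_univ (I : Finset (Fin 13)) : mkG I ≤ mkG Finset.univ :=
  ⟨le_rfl, fun _ _ ⟨i, _, h⟩ => ⟨i, Finset.mem_univ i, h⟩⟩

/-- the drawing of the union of the two graphs -/
noncomputable def D : Drawing (mkG I₁ ⊔ mkG I₂) :=
  D₀.restrict (sup_le (le_univ I₁) (le_univ I₂))

theorem iocr_zero {I : Finset (Fin 13)} {G : (⊤ : SimpleGraph (Fin 8)).Subgraph}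
    (hG : G ≤ mkG Finset.univ) (h : mkG I ≤ G)
    (hI : ∀ i j : Fin 13, i ∈ I → j ∈ I → eu i ≠ eu j → eu i ≠ ev j → ev i ≠ eu j → ev i ≠ ev j →
      Even ((sgs i ×ˢ sgs j).filter (fun q => cross q.1 q.2 = true)).card) :
    ((D₀.restrict hG).restrict h).iocr = 0 := by
  unfold Drawing.iocr
  rw [Set.ncard_eq_zero (Set.toFinite _)]
  rw [Set.eq_empty_iff_forall_notMem]
  rintro p ⟨e, he, f, hf, -, hind, hodd⟩
  obtain ⟨i, hi, rfl⟩ := mem_edge.1 he
  obtain ⟨j, hj, rfl⟩ := mem_edge.1 hf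
  have h1 := hind (eu i) (by simp)
  have h2 := hind (ev i) (by simp)
  rw [Sym2.mem_iff, not_or] at h1 h2
  have hev := hI i j hi hj h1.1 h1.2 h2.1 h2.2
  have hcr : ((D₀.restrict hG).restrict h).crossings s(eu i, ev i) s(eu j, ev j)
      = arcOf (sgs i) ∩ arcOf (sgs j) := by
    show (theArc _ ∩ theArc _) \ _ = _
    rw [theArc_eq, theArc_eq]
    apply Disjoint.sdiff_eq_left
    rw [Set.disjoint_left]
    rintro z ⟨hz1, hz2⟩ ⟨w, -, rfl⟩
    rcases avoid_i hz1 with rfl | rfl <;> rcases avoid_i hz2 with h3 | h3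
    · exact h1.1 h3
    · exact h1.2 h3
    · exact h2.1 h3
    · exact h2.2 h3
  rw [hcr, ncard_inter (chk_self i) (chk_self j)
    (chk_indep i j h1.1 h1.2 h2.1 h2.2)] at hodd
  exact (Nat.not_odd_iff_even.2 hev) hodd

theorem siocr_D : siocrOf D = 0 := by
  unfold siocrOf
  have h1 : (D.restrict (le_sup_left : mkG I₁ ≤ mkG I₁ ⊔ mkG I₂)).iocr = 0 :=
    iocr_zero _ _ (fun i j hi hj => chk_even i j (Or.inl ⟨hi, hj⟩))
  have h2 : (D.restrict (le_sup_right : mkG I₂ ≤ mkG I₁ ⊔ mkG I₂)).iocr = 0 :=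
    iocr_zero _ _ (fun i j hi hj => chk_even i j (Or.inr ⟨hi, hj⟩))
  rw [h1, h2]

/-! ### There is no simultaneous embedding with fixed edges -/

theorem disj_of {G : (⊤ : SimpleGraph (Fin 8)).Subgraph} {Γ : Drawing G} (hΓ : Γ.Planar)
    {e f : Sym2 (Fin 8)} (he : e ∈ G.edgeSet) (hf : f ∈ G.edgeSet) (hind : ∀ w, w ∈ e → w ∉ f)
    {X Y : ℝ → ℂ} (hX : ∀ s, X s ∈ Γ.arc e) (hY : ∀ t, Y t ∈ Γ.arc f) : ∀ s t, X s ≠ Y t := by
  intro s t hst
  have hne : e ≠ f := by
    rintro rfl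
    induction e with
    | _ u v => exact hind u (by simp) (by simp)
  have h1 := hΓ e he f hf hne
  have h2 : X s ∉ Γ.crossings e f := by rw [h1]; simp
  apply h2
  refine ⟨⟨hX s, by rw [hst]; exact hY t⟩, ?_⟩
  rintro ⟨w, hw, hwX⟩
  exact hind w (Γ.avoid e he w hw (by rw [hwX]; exact hX s))
    (Γ.avoid f hf w hw (by rw [hwX, hst]; exact hY t))

theorem corner_of {G : (⊤ : SimpleGraph (Fin 8)).Subgraph} {Γ : Drawing G} (hΓ : Γ.Planar)
    {e f : Sym2 (Fin 8)} (he : e ∈ G.edgeSet) (hf : f ∈ G.edgeSet) (hne : e ≠ f) {u : Fin 8}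
    (hu : ∀ w, w ∈ e → w ∈ f → w = u)
    {X Y : ℝ → ℂ} (hX : ∀ s, X s ∈ Γ.arc e) (hY : ∀ t, Y t ∈ Γ.arc f)
    (hX0 : ∀ s, X s = Γ.pt u → s ≤ 0) (hY0 : ∀ s, Y s = Γ.pt u → s ≤ 0) :
    ∀ s t, X s = Y t → s ≤ 0 ∧ t ≤ 0 := by
  intro s t hst
  have h1 := hΓ e he f hf hne
  have h2 : X s ∉ Γ.crossings e f := by rw [h1]; simp
  have h3 : X s ∈ Γ.pt '' G.verts := by
    by_contra hcon
    exact h2 ⟨⟨hX s, by rw [hst]; exact hY t⟩, hcon⟩
  obtain ⟨w, hw, hwX⟩ := h3
  have h4 := hu w (Γ.avoid e he w hw (by rw [hwX]; exact hX s))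
    (Γ.avoid f hf w hw (by rw [hwX, hst]; exact hY t))
  rw [h4] at hwX
  exact ⟨hX0 s hwX.symm, hY0 t (by rw [← hst]; exact hwX.symm)⟩

theorem extend_start {x y : ℂ} {γ : Path x y} (hγ : Function.Injective γ) {s : ℝ}
    (h : γ.extend s = x) : s ≤ 0 := by
  by_contra hcon
  push Not at hcon
  rcases le_or_gt s 1 with h1 | h1
  · rw [Path.extend_apply γ ⟨hcon.le, h1⟩] at h
    have h2 : (⟨s, ⟨hcon.le, h1⟩⟩ : unitInterval) = 0 := hγ (by rw [h, γ.source])
    have h3 := congrArg Subtype.val h2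
    simp at h3
    linarith
  · rw [γ.extend_of_one_le h1.le] at h
    have h2 : (1 : unitInterval) = 0 := hγ (by rw [γ.target, γ.source, h])
    exact one_ne_zero h2

theorem no_sefe : ¬ HasSEFE (mkG I₁) (mkG I₂) := by
  rintro ⟨Γ₁, Γ₂, hP₁, hP₂, hpt, harc⟩
  have hv : ∀ v, Γ₁.pt v = Γ₂.pt v := fun v => hpt v ⟨Set.mem_univ _, Set.mem_univ _⟩
  have m1 : ∀ i ∈ I₁, (s(eu i, ev i) : Sym2 (Fin 8)) ∈ (mkG I₁).edgeSet :=
    fun i hi => mem_edge.2 ⟨i, hi, rfl⟩
  have m2 : ∀ i ∈ I₂, (s(eu i, ev i) : Sym2 (Fin 8)) ∈ (mkG I₂).edgeSet :=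
    fun i hi => mem_edge.2 ⟨i, hi, rfl⟩
  -- parametrisations of the arcs
  have hex : ∀ i : Fin 13, ∃ X : ℝ → ℂ, Continuous X ∧ X 0 = Γ₁.pt (eu i) ∧ X 1 = Γ₁.pt (ev i) ∧
      (∀ s, X s = Γ₁.pt (eu i) → s ≤ 0) ∧
      (i ∈ I₁ → ∀ s, X s ∈ Γ₁.arc s(eu i, ev i)) ∧
      (i ∈ I₂ → ∀ s, X s ∈ Γ₂.arc s(eu i, ev i)) := by
    intro i
    by_cases h1 : i ∈ I₁
    · obtain ⟨γ, hγ, hr⟩ := Γ₁.isArc (eu i) (ev i) ⟨i, h1, rfl⟩
      have hmem : ∀ s, γ.extend s ∈ Γ₁.arc s(eu i, ev i) := by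
        intro s
        rw [← hr, ← γ.extend_range]
        exact ⟨s, rfl⟩
      refine ⟨γ.extend, γ.continuous_extend, γ.extend_zero, γ.extend_one,
        fun s hs => extend_start hγ hs, fun _ => hmem, fun h2 s => ?_⟩
      rw [← harc _ ⟨m1 i h1, m2 i h2⟩]
      exact hmem s
    · have h2 : i ∈ I₂ := by
        revert h1; revert i; decide
      obtain ⟨γ, hγ, hr⟩ := Γ₂.isArc (eu i) (ev i) ⟨i, h2, rfl⟩
      have hmem : ∀ s, γ.extend s ∈ Γ₂.arc s(eu i, ev i) := by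
        intro s
        rw [← hr, ← γ.extend_range]
        exact ⟨s, rfl⟩
      refine ⟨γ.extend, γ.continuous_extend, by rw [hv]; exact γ.extend_zero,
        by rw [hv]; exact γ.extend_one, fun s hs => extend_start hγ (hs.trans (hv _)),
        fun h3 => absurd h3 h1, fun _ => hmem⟩
  choose X hXc hX0 hX1 hXs hXm1 hXm2 using hex
  have dj1 : ∀ i ∈ I₁, ∀ j ∈ I₁, (∀ w, w ∈ (s(eu i, ev i) : Sym2 (Fin 8)) → w ∉ s(eu j, ev j)) →
      ∀ s t, X i s ≠ X j t :=
    fun i hi j hj h => disj_of hP₁ (m1 i hi) (m1 j hj) h (hXm1 i hi) (hXm1 j hj)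
  have dj2 : ∀ i ∈ I₂, ∀ j ∈ I₂, (∀ w, w ∈ (s(eu i, ev i) : Sym2 (Fin 8)) → w ∉ s(eu j, ev j)) →
      ∀ s t, X i s ≠ X j t :=
    fun i hi j hj h => disj_of hP₂ (m2 i hi) (m2 j hj) h (hXm2 i hi) (hXm2 j hj)
  have cn1 : ∀ i ∈ I₁, ∀ j ∈ I₁, (s(eu i, ev i) : Sym2 (Fin 8)) ≠ s(eu j, ev j) →
      eu i = eu j → (∀ w, w ∈ (s(eu i, ev i) : Sym2 (Fin 8)) → w ∈ (s(eu j, ev j) : Sym2 (Fin 8)) →
        w = eu i) →
      ∀ s t, X i s = X j t → s ≤ 0 ∧ t ≤ 0 :=
    fun i hi j hj hne hu h => corner_of hP₁ (m1 i hi) (m1 j hj) hne h (hXm1 i hi) (hXm1 j hj)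
      (hXs i) (by rw [hu]; exact hXs j)
  refine Pool.Agent.H477R3.Core.core (X 0) (fun i => X (![1, 2, 3] i)) (fun i => X (![4, 5, 6] i))
    (fun i => X (![7, 8, 9] i)) (fun i => X (![10, 11, 12] i)) (hXc 0) (fun i => hXc _)
    (fun i => hXc _) (fun i => hXc _) (fun i => hXc _) ?_ ?_ ?_ ?_ ?_ ?_ ?_ ?_ ?_ ?_ ?_ ?_ ?_ ?_ ?_
    ?_ ?_
  · intro i
    show X (![1, 2, 3] i) 0 = X 0 0
    rw [hX0, hX0]
    fin_cases i <;> rfl
  · intro i
    show X (![4, 5, 6] i) 0 = X 0 1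
    rw [hX0, hX1]
    fin_cases i <;> rfl
  · intro i
    show X (![7, 8, 9] i) 0 = X (![1, 2, 3] i) 1
    rw [hX0, hX1]
    fin_cases i <;> rfl
  · intro i
    show X (![7, 8, 9] i) 1 = X (![4, 5, 6] i) 1
    rw [hX1, hX1]
    fin_cases i <;> rfl
  · intro i
    show X (![10, 11, 12] i) 0 = X (![1, 2, 3] (i + 1)) 1
    rw [hX0, hX1]
    fin_cases i <;> rfl
  · intro i
    show X (![10, 11, 12] i) 1 = X (![4, 5, 6] i) 1
    rw [hX1, hX1]
    fin_cases i <;> rfl
  · intro i j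
    apply dj1 <;> revert i j <;> decide
  · intro i
    apply dj1 _ _ 0 <;> revert i <;> decide
  · intro i j hij
    apply dj1 <;> revert i j <;> decide
  · intro i j hij
    apply dj1 <;> revert i j <;> decide
  · intro i j hij
    apply dj1 <;> revert i j <;> decide
  · intro i
    apply dj2 _ _ 0 <;> revert i <;> decide
  · intro i j hij
    apply dj2 <;> revert i j <;> decide
  · intro i j hij
    apply dj2 <;> revert i j <;> decide
  · intro i j hij
    apply dj2 <;> revert i j <;> decide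
  · intro i j hij
    apply cn1 <;> revert i j <;> decide
  · intro i
    apply cn1 0 _ <;> revert i <;> decide

/-- **The Hanani–Tutte criterion for SEFE fails.**  There are two graphs `G₁, G₂` such that
`G₁ ∪ G₂` has a drawing `D` with `siocr(D) = 0`, so that `siocr(G₁, G₂) = 0`, while the pair
`(G₁, G₂)` admits no simultaneous embedding with fixed edges. -/
theorem result : ∃ G₁ G₂ : (⊤ : SimpleGraph (Fin 8)).Subgraph,
    (∃ D : Drawing (G₁ ⊔ G₂), siocrOf D = 0) ∧ siocr G₁ G₂ = 0 ∧ ¬ HasSEFE G₁ G₂ := by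
  refine ⟨mkG I₁, mkG I₂, ⟨D, siocr_D⟩, ?_, no_sefe⟩
  exact Nat.sInf_eq_zero.2 (Or.inl ⟨D, siocr_D⟩)

end Pool.Agent.Results.MP_3c943f_co.HananiTutteSefeFails
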